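import Pool.Agent.Run7.h658.AP.Config

/-!
# The checker for the certificate
-/

set_option autoImplicit false

namespace Pool.Agent.Run7.h658.AP

/-- the maximum -/
def mx (a b : Nat) : Nat := cond (Nat.ble a b) b a

/-- the distance from `c` to the farthest point of `[lo, hi]` -/
def far (lo hi c : Nat) : Nat := mx (Nat.sub c lo) (Nat.sub hi c)

/-- `dd ^ 2 + 3 * ee ^ 2 < r ^ 2` -/
def small (dd ee r : Nat) : Bool :=
  Nat.ble (Nat.succ (Nat.add (Nat.mul dd dd) (Nat.mul 3 (Nat.mul ee ee)))) (Nat.mul r r)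

/-- the box `[x0, x1] × [y0, y1]` is hit at time `n` by the disc `j` -/
def leafOK (vE vB rho x0 x1 y0 y1 n j i1 i2 : Nat) : Bool :=
  and (and (Nat.ble (Nat.succ n) K) (Nat.ble (Nat.succ j) M))
    (small
      (far (Nat.add x0 (Nat.mul n vE)) (Nat.add x1 (Nat.mul n vE))
        (Nat.add (cE j) (Nat.mul (Nat.add (Nat.mul 2 i1) i2) W)))
      (far (Nat.add y0 (Nat.mul n vB)) (Nat.add y1 (Nat.mul n vB))
        (Nat.add (cB j) (Nat.mul i2 W)))
      (Nat.sub S (Nat.mul n rho)))

/-- one step of the checker -/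
def stepc (vE vB rho : Nat) (ih : Nat → Nat → Nat → Nat → Nat → Nat) (x0 x1 y0 y1 code : Nat) : Nat :=
  cond (Nat.beq (Nat.land code 3) 1)
    (cond (leafOK vE vB rho x0 x1 y0 y1 (Nat.land (Nat.shiftRight code 2) 63)
        (Nat.land (Nat.shiftRight code 8) 15) (Nat.land (Nat.shiftRight code 12) 15)
        (Nat.land (Nat.shiftRight code 16) 15))
      (Nat.shiftRight code 20) 0)
    (cond (Nat.beq (Nat.land code 3) 2)
      (ih x0 x1 (Nat.div (Nat.add y0 y1) 2) y1
        (ih x0 x1 y0 (Nat.div (Nat.add y0 y1) 2) (Nat.shiftRight code 2)))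
      (cond (Nat.beq (Nat.land code 3) 3)
        (ih (Nat.add (Nat.mul 4 W) (Nat.mul (Nat.land (Nat.shiftRight code 2) 2047) g)) x1 y0 y1
          (ih x0 (Nat.add (Nat.mul 4 W) (Nat.mul (Nat.land (Nat.shiftRight code 2) 2047) g)) y0 y1
            (Nat.shiftRight code 13)))
        0))

/-- the checker: the code that remains, or `0` if it fails -/
def chk (vE vB rho : Nat) (fuel : Nat) : Nat → Nat → Nat → Nat → Nat → Nat :=
  Nat.rec (fun _ _ _ _ _ => 0) (fun _ ih => stepc vE vB rho ih) fuel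

/-- the check that the cone between two directions lies in the disc with centre `(vE, vB)` -/
def coneOK (E B vE vB rho : Nat) : Bool :=
  Nat.ble
    ((4 * S * S + (vE * vE + 3 * (vB * vB)) - rho * rho) ^ 2 * (E * E + 3 * (B * B)))
    ((4 * S * (E * vE + 3 * (B * vB))) ^ 2)

/-- the whole check for one range of directions -/
def full (E0 B0 E1 B1 vE vB rho fuel code : Nat) : Bool :=
  and (and (Nat.ble (Nat.succ (B0 * E1)) (E0 * B1))
    (and (coneOK E0 B0 vE vB rho) (coneOK E1 B1 vE vB rho)))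
    (Nat.ble 1 (chk vE vB rho fuel (4 * W) (6 * W) W (2 * W) code))

end Pool.Agent.Run7.h658.AP
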