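/-!
# The configuration of discs
-/

set_option autoImplicit false

namespace Pool.Agent.Run7.h658.AP

/-- the scale: `2 * S` is the unit length -/
def S : Nat := 100000

/-- the side of the lattice, in units of `1 / S` -/
def W : Nat := 838056

/-- the length of the progressions -/
def K : Nat := 43

/-- the number of discs in a cell -/
def M : Nat := 13

/-- the grid -/
def g : Nat := 819

/-- the first coordinates of the centres, packed -/
def packE : Nat := 0xd316a0976b60fb4d81858ab04e21a15ebdb123e3007adef193a81052bd20d2bdc14054a

/-- the second coordinates of the centres, packed -/
def packB : Nat := 0x22e820519b20581740b5ef507b780067cdb0b335a0ada8b03856b01fabe09366001988a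

/-- first coordinate of the centre `j` -/
def cE (j : Nat) : Nat := Nat.mod (Nat.shiftRight packE (Nat.mul 24 j)) 16777216

/-- second coordinate of the centre `j` -/
def cB (j : Nat) : Nat := Nat.mod (Nat.shiftRight packB (Nat.mul 24 j)) 16777216

end Pool.Agent.Run7.h658.AP
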