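import Pool.Agent.Run7.h658.AP.Main
import Pool.Agent.Run7.h658.AP.D00
import Pool.Agent.Run7.h658.AP.D01
import Pool.Agent.Run7.h658.AP.D02
import Pool.Agent.Run7.h658.AP.D03
import Pool.Agent.Run7.h658.AP.D04
import Pool.Agent.Run7.h658.AP.D05
import Pool.Agent.Run7.h658.AP.D06
import Pool.Agent.Run7.h658.AP.D07
import Pool.Agent.Run7.h658.AP.D08
import Pool.Agent.Run7.h658.AP.D09
import Pool.Agent.Run7.h658.AP.D10
import Pool.Agent.Run7.h658.AP.D11
import Pool.Agent.Run7.h658.AP.D12
import Pool.Agent.Run7.h658.AP.D13
import Pool.Agent.Run7.h658.AP.D14
import Pool.Agent.Run7.h658.AP.D15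

/-!
# The sector of directions, put together from the ranges
-/

set_option autoImplicit false

namespace Pool.Agent.Run7.h658.AP

theorem chunk0 : Cov 200000 0 199019 11421 := by
  have h := cov_of_full r0x0
  replace h := h.trans (cov_of_full r0x1)
  replace h := h.trans (cov_of_full r0x2)
  replace h := h.trans (cov_of_full r0x3)
  replace h := h.trans (cov_of_full r0x4)
  replace h := h.trans (cov_of_full r0x5)
  replace h := h.trans (cov_of_full r0x6)
  replace h := h.trans (cov_of_full r0x7)
  replace h := h.trans (cov_of_full r0x8)
  replace h := h.trans (cov_of_full r0x9)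
  replace h := h.trans (cov_of_full r0x10)
  replace h := h.trans (cov_of_full r0x11)
  replace h := h.trans (cov_of_full r0x12)
  replace h := h.trans (cov_of_full r0x13)
  replace h := h.trans (cov_of_full r0x14)
  replace h := h.trans (cov_of_full r0x15)
  replace h := h.trans (cov_of_full r0x16)
  replace h := h.trans (cov_of_full r0x17)
  replace h := h.trans (cov_of_full r0x18)
  replace h := h.trans (cov_of_full r0x19)
  replace h := h.trans (cov_of_full r0x20)
  replace h := h.trans (cov_of_full r0x21)
  replace h := h.trans (cov_of_full r0x22)
  replace h := h.trans (cov_of_full r0x23)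
  replace h := h.trans (cov_of_full r0x24)
  replace h := h.trans (cov_of_full r0x25)
  replace h := h.trans (cov_of_full r0x26)
  replace h := h.trans (cov_of_full r0x27)
  replace h := h.trans (cov_of_full r0x28)
  replace h := h.trans (cov_of_full r0x29)
  replace h := h.trans (cov_of_full r0x30)
  replace h := h.trans (cov_of_full r0x31)
  exact h

theorem chunk1 : Cov 199019 11421 198496 14135 := by
  have h := cov_of_full r1x0
  replace h := h.trans (cov_of_full r1x1)
  replace h := h.trans (cov_of_full r1x2)
  replace h := h.trans (cov_of_full r1x3)
  replace h := h.trans (cov_of_full r1x4)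
  replace h := h.trans (cov_of_full r1x5)
  replace h := h.trans (cov_of_full r1x6)
  replace h := h.trans (cov_of_full r1x7)
  replace h := h.trans (cov_of_full r1x8)
  replace h := h.trans (cov_of_full r1x9)
  replace h := h.trans (cov_of_full r1x10)
  replace h := h.trans (cov_of_full r1x11)
  replace h := h.trans (cov_of_full r1x12)
  replace h := h.trans (cov_of_full r1x13)
  replace h := h.trans (cov_of_full r1x14)
  replace h := h.trans (cov_of_full r1x15)
  replace h := h.trans (cov_of_full r1x16)
  replace h := h.trans (cov_of_full r1x17)
  replace h := h.trans (cov_of_full r1x18)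
  replace h := h.trans (cov_of_full r1x19)
  replace h := h.trans (cov_of_full r1x20)
  replace h := h.trans (cov_of_full r1x21)
  replace h := h.trans (cov_of_full r1x22)
  replace h := h.trans (cov_of_full r1x23)
  replace h := h.trans (cov_of_full r1x24)
  replace h := h.trans (cov_of_full r1x25)
  replace h := h.trans (cov_of_full r1x26)
  replace h := h.trans (cov_of_full r1x27)
  replace h := h.trans (cov_of_full r1x28)
  replace h := h.trans (cov_of_full r1x29)
  replace h := h.trans (cov_of_full r1x30)
  replace h := h.trans (cov_of_full r1x31)
  exact h

theorem chunk2 : Cov 198496 14135 193185 29886 := by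
  have h := cov_of_full r2x0
  replace h := h.trans (cov_of_full r2x1)
  replace h := h.trans (cov_of_full r2x2)
  replace h := h.trans (cov_of_full r2x3)
  replace h := h.trans (cov_of_full r2x4)
  replace h := h.trans (cov_of_full r2x5)
  replace h := h.trans (cov_of_full r2x6)
  replace h := h.trans (cov_of_full r2x7)
  replace h := h.trans (cov_of_full r2x8)
  replace h := h.trans (cov_of_full r2x9)
  replace h := h.trans (cov_of_full r2x10)
  replace h := h.trans (cov_of_full r2x11)
  replace h := h.trans (cov_of_full r2x12)
  replace h := h.trans (cov_of_full r2x13)
  replace h := h.trans (cov_of_full r2x14)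
  replace h := h.trans (cov_of_full r2x15)
  replace h := h.trans (cov_of_full r2x16)
  replace h := h.trans (cov_of_full r2x17)
  replace h := h.trans (cov_of_full r2x18)
  replace h := h.trans (cov_of_full r2x19)
  replace h := h.trans (cov_of_full r2x20)
  replace h := h.trans (cov_of_full r2x21)
  replace h := h.trans (cov_of_full r2x22)
  replace h := h.trans (cov_of_full r2x23)
  replace h := h.trans (cov_of_full r2x24)
  replace h := h.trans (cov_of_full r2x25)
  replace h := h.trans (cov_of_full r2x26)
  replace h := h.trans (cov_of_full r2x27)
  replace h := h.trans (cov_of_full r2x28)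
  replace h := h.trans (cov_of_full r2x29)
  replace h := h.trans (cov_of_full r2x30)
  replace h := h.trans (cov_of_full r2x31)
  exact h

theorem chunk3 : Cov 193185 29886 188786 38121 := by
  have h := cov_of_full r3x0
  replace h := h.trans (cov_of_full r3x1)
  replace h := h.trans (cov_of_full r3x2)
  replace h := h.trans (cov_of_full r3x3)
  replace h := h.trans (cov_of_full r3x4)
  replace h := h.trans (cov_of_full r3x5)
  replace h := h.trans (cov_of_full r3x6)
  replace h := h.trans (cov_of_full r3x7)
  replace h := h.trans (cov_of_full r3x8)
  replace h := h.trans (cov_of_full r3x9)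
  replace h := h.trans (cov_of_full r3x10)
  replace h := h.trans (cov_of_full r3x11)
  replace h := h.trans (cov_of_full r3x12)
  replace h := h.trans (cov_of_full r3x13)
  replace h := h.trans (cov_of_full r3x14)
  replace h := h.trans (cov_of_full r3x15)
  replace h := h.trans (cov_of_full r3x16)
  replace h := h.trans (cov_of_full r3x17)
  replace h := h.trans (cov_of_full r3x18)
  replace h := h.trans (cov_of_full r3x19)
  replace h := h.trans (cov_of_full r3x20)
  replace h := h.trans (cov_of_full r3x21)
  replace h := h.trans (cov_of_full r3x22)
  replace h := h.trans (cov_of_full r3x23)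
  replace h := h.trans (cov_of_full r3x24)
  replace h := h.trans (cov_of_full r3x25)
  replace h := h.trans (cov_of_full r3x26)
  replace h := h.trans (cov_of_full r3x27)
  replace h := h.trans (cov_of_full r3x28)
  replace h := h.trans (cov_of_full r3x29)
  replace h := h.trans (cov_of_full r3x30)
  replace h := h.trans (cov_of_full r3x31)
  exact h

theorem chunk4 : Cov 188786 38121 183417 46036 := by
  have h := cov_of_full r4x0
  replace h := h.trans (cov_of_full r4x1)
  replace h := h.trans (cov_of_full r4x2)
  replace h := h.trans (cov_of_full r4x3)
  replace h := h.trans (cov_of_full r4x4)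
  replace h := h.trans (cov_of_full r4x5)
  replace h := h.trans (cov_of_full r4x6)
  replace h := h.trans (cov_of_full r4x7)
  replace h := h.trans (cov_of_full r4x8)
  replace h := h.trans (cov_of_full r4x9)
  replace h := h.trans (cov_of_full r4x10)
  replace h := h.trans (cov_of_full r4x11)
  replace h := h.trans (cov_of_full r4x12)
  replace h := h.trans (cov_of_full r4x13)
  replace h := h.trans (cov_of_full r4x14)
  replace h := h.trans (cov_of_full r4x15)
  replace h := h.trans (cov_of_full r4x16)
  replace h := h.trans (cov_of_full r4x17)
  replace h := h.trans (cov_of_full r4x18)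
  replace h := h.trans (cov_of_full r4x19)
  replace h := h.trans (cov_of_full r4x20)
  replace h := h.trans (cov_of_full r4x21)
  replace h := h.trans (cov_of_full r4x22)
  replace h := h.trans (cov_of_full r4x23)
  replace h := h.trans (cov_of_full r4x24)
  replace h := h.trans (cov_of_full r4x25)
  replace h := h.trans (cov_of_full r4x26)
  replace h := h.trans (cov_of_full r4x27)
  replace h := h.trans (cov_of_full r4x28)
  replace h := h.trans (cov_of_full r4x29)
  replace h := h.trans (cov_of_full r4x30)
  replace h := h.trans (cov_of_full r4x31)
  exact h

theorem chunk5 : Cov 183417 46036 181663 48300 := by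
  have h := cov_of_full r5x0
  replace h := h.trans (cov_of_full r5x1)
  replace h := h.trans (cov_of_full r5x2)
  replace h := h.trans (cov_of_full r5x3)
  replace h := h.trans (cov_of_full r5x4)
  replace h := h.trans (cov_of_full r5x5)
  replace h := h.trans (cov_of_full r5x6)
  replace h := h.trans (cov_of_full r5x7)
  replace h := h.trans (cov_of_full r5x8)
  replace h := h.trans (cov_of_full r5x9)
  replace h := h.trans (cov_of_full r5x10)
  replace h := h.trans (cov_of_full r5x11)
  replace h := h.trans (cov_of_full r5x12)
  replace h := h.trans (cov_of_full r5x13)
  replace h := h.trans (cov_of_full r5x14)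
  replace h := h.trans (cov_of_full r5x15)
  replace h := h.trans (cov_of_full r5x16)
  replace h := h.trans (cov_of_full r5x17)
  replace h := h.trans (cov_of_full r5x18)
  replace h := h.trans (cov_of_full r5x19)
  replace h := h.trans (cov_of_full r5x20)
  replace h := h.trans (cov_of_full r5x21)
  replace h := h.trans (cov_of_full r5x22)
  replace h := h.trans (cov_of_full r5x23)
  replace h := h.trans (cov_of_full r5x24)
  replace h := h.trans (cov_of_full r5x25)
  replace h := h.trans (cov_of_full r5x26)
  replace h := h.trans (cov_of_full r5x27)
  replace h := h.trans (cov_of_full r5x28)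
  replace h := h.trans (cov_of_full r5x29)
  replace h := h.trans (cov_of_full r5x30)
  replace h := h.trans (cov_of_full r5x31)
  exact h

theorem chunk6 : Cov 181663 48300 178276 52338 := by
  have h := cov_of_full r6x0
  replace h := h.trans (cov_of_full r6x1)
  replace h := h.trans (cov_of_full r6x2)
  replace h := h.trans (cov_of_full r6x3)
  replace h := h.trans (cov_of_full r6x4)
  replace h := h.trans (cov_of_full r6x5)
  replace h := h.trans (cov_of_full r6x6)
  replace h := h.trans (cov_of_full r6x7)
  replace h := h.trans (cov_of_full r6x8)
  replace h := h.trans (cov_of_full r6x9)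
  replace h := h.trans (cov_of_full r6x10)
  replace h := h.trans (cov_of_full r6x11)
  replace h := h.trans (cov_of_full r6x12)
  replace h := h.trans (cov_of_full r6x13)
  replace h := h.trans (cov_of_full r6x14)
  replace h := h.trans (cov_of_full r6x15)
  replace h := h.trans (cov_of_full r6x16)
  replace h := h.trans (cov_of_full r6x17)
  replace h := h.trans (cov_of_full r6x18)
  replace h := h.trans (cov_of_full r6x19)
  replace h := h.trans (cov_of_full r6x20)
  replace h := h.trans (cov_of_full r6x21)
  replace h := h.trans (cov_of_full r6x22)
  replace h := h.trans (cov_of_full r6x23)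
  replace h := h.trans (cov_of_full r6x24)
  replace h := h.trans (cov_of_full r6x25)
  replace h := h.trans (cov_of_full r6x26)
  replace h := h.trans (cov_of_full r6x27)
  replace h := h.trans (cov_of_full r6x28)
  replace h := h.trans (cov_of_full r6x29)
  replace h := h.trans (cov_of_full r6x30)
  replace h := h.trans (cov_of_full r6x31)
  exact h

theorem chunk7 : Cov 178276 52338 165609 64740 := by
  have h := cov_of_full r7x0
  replace h := h.trans (cov_of_full r7x1)
  replace h := h.trans (cov_of_full r7x2)
  replace h := h.trans (cov_of_full r7x3)
  replace h := h.trans (cov_of_full r7x4)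
  replace h := h.trans (cov_of_full r7x5)
  replace h := h.trans (cov_of_full r7x6)
  replace h := h.trans (cov_of_full r7x7)
  replace h := h.trans (cov_of_full r7x8)
  replace h := h.trans (cov_of_full r7x9)
  replace h := h.trans (cov_of_full r7x10)
  replace h := h.trans (cov_of_full r7x11)
  replace h := h.trans (cov_of_full r7x12)
  replace h := h.trans (cov_of_full r7x13)
  replace h := h.trans (cov_of_full r7x14)
  replace h := h.trans (cov_of_full r7x15)
  replace h := h.trans (cov_of_full r7x16)
  replace h := h.trans (cov_of_full r7x17)
  replace h := h.trans (cov_of_full r7x18)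
  replace h := h.trans (cov_of_full r7x19)
  replace h := h.trans (cov_of_full r7x20)
  replace h := h.trans (cov_of_full r7x21)
  replace h := h.trans (cov_of_full r7x22)
  replace h := h.trans (cov_of_full r7x23)
  replace h := h.trans (cov_of_full r7x24)
  replace h := h.trans (cov_of_full r7x25)
  replace h := h.trans (cov_of_full r7x26)
  replace h := h.trans (cov_of_full r7x27)
  replace h := h.trans (cov_of_full r7x28)
  replace h := h.trans (cov_of_full r7x29)
  replace h := h.trans (cov_of_full r7x30)
  replace h := h.trans (cov_of_full r7x31)
  exact h

theorem chunk8 : Cov 165609 64740 161188 68358 := by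
  have h := cov_of_full r8x0
  replace h := h.trans (cov_of_full r8x1)
  replace h := h.trans (cov_of_full r8x2)
  replace h := h.trans (cov_of_full r8x3)
  replace h := h.trans (cov_of_full r8x4)
  replace h := h.trans (cov_of_full r8x5)
  replace h := h.trans (cov_of_full r8x6)
  replace h := h.trans (cov_of_full r8x7)
  replace h := h.trans (cov_of_full r8x8)
  replace h := h.trans (cov_of_full r8x9)
  replace h := h.trans (cov_of_full r8x10)
  replace h := h.trans (cov_of_full r8x11)
  replace h := h.trans (cov_of_full r8x12)
  replace h := h.trans (cov_of_full r8x13)
  replace h := h.trans (cov_of_full r8x14)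
  replace h := h.trans (cov_of_full r8x15)
  replace h := h.trans (cov_of_full r8x16)
  replace h := h.trans (cov_of_full r8x17)
  replace h := h.trans (cov_of_full r8x18)
  replace h := h.trans (cov_of_full r8x19)
  replace h := h.trans (cov_of_full r8x20)
  replace h := h.trans (cov_of_full r8x21)
  replace h := h.trans (cov_of_full r8x22)
  replace h := h.trans (cov_of_full r8x23)
  replace h := h.trans (cov_of_full r8x24)
  replace h := h.trans (cov_of_full r8x25)
  replace h := h.trans (cov_of_full r8x26)
  replace h := h.trans (cov_of_full r8x27)
  replace h := h.trans (cov_of_full r8x28)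
  replace h := h.trans (cov_of_full r8x29)
  replace h := h.trans (cov_of_full r8x30)
  replace h := h.trans (cov_of_full r8x31)
  exact h

theorem chunk9 : Cov 161188 68358 159291 69824 := by
  have h := cov_of_full r9x0
  replace h := h.trans (cov_of_full r9x1)
  replace h := h.trans (cov_of_full r9x2)
  replace h := h.trans (cov_of_full r9x3)
  replace h := h.trans (cov_of_full r9x4)
  replace h := h.trans (cov_of_full r9x5)
  replace h := h.trans (cov_of_full r9x6)
  replace h := h.trans (cov_of_full r9x7)
  replace h := h.trans (cov_of_full r9x8)
  replace h := h.trans (cov_of_full r9x9)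
  replace h := h.trans (cov_of_full r9x10)
  replace h := h.trans (cov_of_full r9x11)
  replace h := h.trans (cov_of_full r9x12)
  replace h := h.trans (cov_of_full r9x13)
  replace h := h.trans (cov_of_full r9x14)
  replace h := h.trans (cov_of_full r9x15)
  replace h := h.trans (cov_of_full r9x16)
  replace h := h.trans (cov_of_full r9x17)
  replace h := h.trans (cov_of_full r9x18)
  replace h := h.trans (cov_of_full r9x19)
  replace h := h.trans (cov_of_full r9x20)
  replace h := h.trans (cov_of_full r9x21)
  replace h := h.trans (cov_of_full r9x22)
  replace h := h.trans (cov_of_full r9x23)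
  replace h := h.trans (cov_of_full r9x24)
  replace h := h.trans (cov_of_full r9x25)
  replace h := h.trans (cov_of_full r9x26)
  replace h := h.trans (cov_of_full r9x27)
  replace h := h.trans (cov_of_full r9x28)
  replace h := h.trans (cov_of_full r9x29)
  replace h := h.trans (cov_of_full r9x30)
  replace h := h.trans (cov_of_full r9x31)
  exact h

theorem chunk10 : Cov 159291 69824 148738 77194 := by
  have h := cov_of_full r10x0
  replace h := h.trans (cov_of_full r10x1)
  replace h := h.trans (cov_of_full r10x2)
  replace h := h.trans (cov_of_full r10x3)
  replace h := h.trans (cov_of_full r10x4)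
  replace h := h.trans (cov_of_full r10x5)
  replace h := h.trans (cov_of_full r10x6)
  replace h := h.trans (cov_of_full r10x7)
  replace h := h.trans (cov_of_full r10x8)
  replace h := h.trans (cov_of_full r10x9)
  replace h := h.trans (cov_of_full r10x10)
  replace h := h.trans (cov_of_full r10x11)
  replace h := h.trans (cov_of_full r10x12)
  replace h := h.trans (cov_of_full r10x13)
  replace h := h.trans (cov_of_full r10x14)
  replace h := h.trans (cov_of_full r10x15)
  replace h := h.trans (cov_of_full r10x16)
  replace h := h.trans (cov_of_full r10x17)
  replace h := h.trans (cov_of_full r10x18)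
  replace h := h.trans (cov_of_full r10x19)
  replace h := h.trans (cov_of_full r10x20)
  replace h := h.trans (cov_of_full r10x21)
  replace h := h.trans (cov_of_full r10x22)
  replace h := h.trans (cov_of_full r10x23)
  replace h := h.trans (cov_of_full r10x24)
  replace h := h.trans (cov_of_full r10x25)
  replace h := h.trans (cov_of_full r10x26)
  replace h := h.trans (cov_of_full r10x27)
  replace h := h.trans (cov_of_full r10x28)
  replace h := h.trans (cov_of_full r10x29)
  replace h := h.trans (cov_of_full r10x30)
  replace h := h.trans (cov_of_full r10x31)
  exact h

theorem chunk11 : Cov 148738 77194 139529 82728 := by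
  have h := cov_of_full r11x0
  replace h := h.trans (cov_of_full r11x1)
  replace h := h.trans (cov_of_full r11x2)
  replace h := h.trans (cov_of_full r11x3)
  replace h := h.trans (cov_of_full r11x4)
  replace h := h.trans (cov_of_full r11x5)
  replace h := h.trans (cov_of_full r11x6)
  replace h := h.trans (cov_of_full r11x7)
  replace h := h.trans (cov_of_full r11x8)
  replace h := h.trans (cov_of_full r11x9)
  replace h := h.trans (cov_of_full r11x10)
  replace h := h.trans (cov_of_full r11x11)
  replace h := h.trans (cov_of_full r11x12)
  replace h := h.trans (cov_of_full r11x13)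
  replace h := h.trans (cov_of_full r11x14)
  replace h := h.trans (cov_of_full r11x15)
  replace h := h.trans (cov_of_full r11x16)
  replace h := h.trans (cov_of_full r11x17)
  replace h := h.trans (cov_of_full r11x18)
  replace h := h.trans (cov_of_full r11x19)
  replace h := h.trans (cov_of_full r11x20)
  replace h := h.trans (cov_of_full r11x21)
  replace h := h.trans (cov_of_full r11x22)
  replace h := h.trans (cov_of_full r11x23)
  replace h := h.trans (cov_of_full r11x24)
  replace h := h.trans (cov_of_full r11x25)
  replace h := h.trans (cov_of_full r11x26)
  replace h := h.trans (cov_of_full r11x27)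
  replace h := h.trans (cov_of_full r11x28)
  replace h := h.trans (cov_of_full r11x29)
  replace h := h.trans (cov_of_full r11x30)
  replace h := h.trans (cov_of_full r11x31)
  exact h

theorem chunk12 : Cov 139529 82728 132808 86336 := by
  have h := cov_of_full r12x0
  replace h := h.trans (cov_of_full r12x1)
  replace h := h.trans (cov_of_full r12x2)
  replace h := h.trans (cov_of_full r12x3)
  replace h := h.trans (cov_of_full r12x4)
  replace h := h.trans (cov_of_full r12x5)
  replace h := h.trans (cov_of_full r12x6)
  replace h := h.trans (cov_of_full r12x7)
  replace h := h.trans (cov_of_full r12x8)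
  replace h := h.trans (cov_of_full r12x9)
  replace h := h.trans (cov_of_full r12x10)
  replace h := h.trans (cov_of_full r12x11)
  replace h := h.trans (cov_of_full r12x12)
  replace h := h.trans (cov_of_full r12x13)
  replace h := h.trans (cov_of_full r12x14)
  replace h := h.trans (cov_of_full r12x15)
  replace h := h.trans (cov_of_full r12x16)
  replace h := h.trans (cov_of_full r12x17)
  replace h := h.trans (cov_of_full r12x18)
  replace h := h.trans (cov_of_full r12x19)
  replace h := h.trans (cov_of_full r12x20)
  replace h := h.trans (cov_of_full r12x21)
  replace h := h.trans (cov_of_full r12x22)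
  replace h := h.trans (cov_of_full r12x23)
  replace h := h.trans (cov_of_full r12x24)
  replace h := h.trans (cov_of_full r12x25)
  replace h := h.trans (cov_of_full r12x26)
  replace h := h.trans (cov_of_full r12x27)
  replace h := h.trans (cov_of_full r12x28)
  replace h := h.trans (cov_of_full r12x29)
  replace h := h.trans (cov_of_full r12x30)
  replace h := h.trans (cov_of_full r12x31)
  exact h

theorem chunk13 : Cov 132808 86336 127510 88959 := by
  have h := cov_of_full r13x0
  replace h := h.trans (cov_of_full r13x1)
  replace h := h.trans (cov_of_full r13x2)
  replace h := h.trans (cov_of_full r13x3)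
  replace h := h.trans (cov_of_full r13x4)
  replace h := h.trans (cov_of_full r13x5)
  replace h := h.trans (cov_of_full r13x6)
  replace h := h.trans (cov_of_full r13x7)
  replace h := h.trans (cov_of_full r13x8)
  replace h := h.trans (cov_of_full r13x9)
  replace h := h.trans (cov_of_full r13x10)
  replace h := h.trans (cov_of_full r13x11)
  replace h := h.trans (cov_of_full r13x12)
  replace h := h.trans (cov_of_full r13x13)
  replace h := h.trans (cov_of_full r13x14)
  replace h := h.trans (cov_of_full r13x15)
  replace h := h.trans (cov_of_full r13x16)
  replace h := h.trans (cov_of_full r13x17)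
  replace h := h.trans (cov_of_full r13x18)
  replace h := h.trans (cov_of_full r13x19)
  replace h := h.trans (cov_of_full r13x20)
  replace h := h.trans (cov_of_full r13x21)
  replace h := h.trans (cov_of_full r13x22)
  replace h := h.trans (cov_of_full r13x23)
  replace h := h.trans (cov_of_full r13x24)
  replace h := h.trans (cov_of_full r13x25)
  replace h := h.trans (cov_of_full r13x26)
  replace h := h.trans (cov_of_full r13x27)
  replace h := h.trans (cov_of_full r13x28)
  replace h := h.trans (cov_of_full r13x29)
  replace h := h.trans (cov_of_full r13x30)
  replace h := h.trans (cov_of_full r13x31)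
  exact h

theorem chunk14 : Cov 127510 88959 102118 99284 := by
  have h := cov_of_full r14x0
  replace h := h.trans (cov_of_full r14x1)
  replace h := h.trans (cov_of_full r14x2)
  replace h := h.trans (cov_of_full r14x3)
  replace h := h.trans (cov_of_full r14x4)
  replace h := h.trans (cov_of_full r14x5)
  replace h := h.trans (cov_of_full r14x6)
  replace h := h.trans (cov_of_full r14x7)
  replace h := h.trans (cov_of_full r14x8)
  replace h := h.trans (cov_of_full r14x9)
  replace h := h.trans (cov_of_full r14x10)
  replace h := h.trans (cov_of_full r14x11)
  replace h := h.trans (cov_of_full r14x12)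
  replace h := h.trans (cov_of_full r14x13)
  replace h := h.trans (cov_of_full r14x14)
  replace h := h.trans (cov_of_full r14x15)
  replace h := h.trans (cov_of_full r14x16)
  replace h := h.trans (cov_of_full r14x17)
  replace h := h.trans (cov_of_full r14x18)
  replace h := h.trans (cov_of_full r14x19)
  replace h := h.trans (cov_of_full r14x20)
  replace h := h.trans (cov_of_full r14x21)
  replace h := h.trans (cov_of_full r14x22)
  replace h := h.trans (cov_of_full r14x23)
  replace h := h.trans (cov_of_full r14x24)
  replace h := h.trans (cov_of_full r14x25)
  replace h := h.trans (cov_of_full r14x26)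
  replace h := h.trans (cov_of_full r14x27)
  replace h := h.trans (cov_of_full r14x28)
  replace h := h.trans (cov_of_full r14x29)
  replace h := h.trans (cov_of_full r14x30)
  replace h := h.trans (cov_of_full r14x31)
  exact h

theorem chunk15 : Cov 102118 99284 100000 100000 := by
  have h := cov_of_full r15x0
  replace h := h.trans (cov_of_full r15x1)
  replace h := h.trans (cov_of_full r15x2)
  replace h := h.trans (cov_of_full r15x3)
  replace h := h.trans (cov_of_full r15x4)
  replace h := h.trans (cov_of_full r15x5)
  replace h := h.trans (cov_of_full r15x6)
  replace h := h.trans (cov_of_full r15x7)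
  replace h := h.trans (cov_of_full r15x8)
  exact h

theorem sector : Cov (2 * S) 0 S S := by
  have h := chunk0
  replace h := h.trans chunk1
  replace h := h.trans chunk2
  replace h := h.trans chunk3
  replace h := h.trans chunk4
  replace h := h.trans chunk5
  replace h := h.trans chunk6
  replace h := h.trans chunk7
  replace h := h.trans chunk8
  replace h := h.trans chunk9
  replace h := h.trans chunk10
  replace h := h.trans chunk11
  replace h := h.trans chunk12
  replace h := h.trans chunk13
  replace h := h.trans chunk14
  replace h := h.trans chunk15
  exact h

end Pool.Agent.Run7.h658.AP
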