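import Pool.Agent.Run7.h658.AP.Sound

/-!
# The geometry of the colouring
-/

set_option autoImplicit false

namespace Pool.Agent.Run7.h658.AP

open Complex

theorem le_of_sq_le {a b : ℝ} (hb : 0 ≤ b) (h : a ^ 2 ≤ b ^ 2) : a ≤ b := by
  by_contra hc
  have hc' := not_le.mp hc
  nlinarith

/-- the point with coordinates `x`, `y` -/
noncomputable def z (x y : ℝ) : ℂ := ⟨x, Real.sqrt 3 * y⟩

theorem z_add (a b c d : ℝ) : z a b + z c d = z (a + c) (b + d) := by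
  apply Complex.ext <;> simp [z]; ring

theorem z_sub (a b c d : ℝ) : z a b - z c d = z (a - c) (b - d) := by
  apply Complex.ext <;> simp [z]; ring

theorem z_nsmul (n : ℕ) (a b : ℝ) : (n : ℂ) * z a b = z (n * a) (n * b) := by
  apply Complex.ext <;> simp [z]; ring

theorem z_rsmul (t a b : ℝ) : (t : ℂ) * z a b = z (t * a) (t * b) := by
  apply Complex.ext <;> simp [z]; ring

theorem z_neg (a b : ℝ) : - z a b = z (-a) (-b) := by
  apply Complex.ext <;> simp [z]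

theorem norm_z_sq (x y : ℝ) : ‖z x y‖ ^ 2 = x ^ 2 + 3 * y ^ 2 := by
  rw [Complex.sq_norm, Complex.normSq_apply]
  have h : Real.sqrt 3 * Real.sqrt 3 = 3 := Real.mul_self_sqrt (by norm_num)
  simp only [z]
  linear_combination y * y * h

theorem z_surj (w : ℂ) : ∃ x y : ℝ, w = z x y := by
  refine ⟨w.re, w.im / Real.sqrt 3, ?_⟩
  apply Complex.ext
  · simp [z]
  · have : Real.sqrt 3 ≠ 0 := by positivity
    simp only [z]
    field_simp

/-- The red set, in the coordinates where the unit length is `2 * S`. -/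
def RedC : Set ℂ := {w | ∃ j : ℕ, j < M ∧ ∃ a b : ℤ,
  ‖w - z (cE j + (2 * a + b) * W) (cB j + b * W)‖ < S}

theorem red_trans {w : ℂ} (a b : ℤ) (h : w ∈ RedC) : w + z ((2 * a + b) * W) (b * W) ∈ RedC := by
  obtain ⟨j, hj, a', b', h⟩ := h
  refine ⟨j, hj, a' + a, b' + b, ?_⟩
  have e : w + z ((2 * a + b) * W) (b * W) -
      z (cE j + (2 * ((a' + a : ℤ) : ℝ) + ((b' + b : ℤ) : ℝ)) * W) (cB j + ((b' + b : ℤ) : ℝ) * W) =
      w - z (cE j + (2 * a' + b') * W) (cB j + b' * W) := by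
    obtain ⟨x, y, rfl⟩ := z_surj w
    rw [z_add, z_sub, z_sub]
    push_cast
    congr 1 <;> ring
  rw [e]
  exact h

theorem hit_red {vE vB rho : ℕ} {x y p q : ℝ} (h : Hit vE vB rho x y)
    (hv : ‖z (p - vE) (q - vB)‖ ≤ rho) : ∃ n : ℕ, n < K ∧ z x y + (n : ℂ) * z p q ∈ RedC := by
  obtain ⟨n, hn, j, hj, i1, i2, h1, h2⟩ := h
  refine ⟨n, hn, j, hj, i1, i2, ?_⟩
  have e : z x y + (n : ℂ) * z p q - z (cE j + (2 * ((i1 : ℤ) : ℝ) + ((i2 : ℤ) : ℝ)) * W)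
      (cB j + ((i2 : ℤ) : ℝ) * W) =
      z (x + n * vE - (cE j + (2 * i1 + i2) * W)) (y + n * vB - (cB j + i2 * W)) +
      (n : ℂ) * z (p - vE) (q - vB) := by
    rw [z_nsmul, z_nsmul, z_add, z_add, z_sub]
    push_cast
    congr 1 <;> ring
  rw [e]
  have h3 : ‖z (x + n * vE - (cE j + (2 * i1 + i2) * W)) (y + n * vB - (cB j + i2 * W))‖ <
      (S : ℝ) - n * rho := by
    apply lt_of_pow_lt_pow_left₀ 2 (by linarith)
    rw [norm_z_sq]
    exact h2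
  have h4 : ‖(n : ℂ) * z (p - vE) (q - vB)‖ ≤ n * rho := by
    rw [norm_mul, Complex.norm_natCast]
    exact mul_le_mul_of_nonneg_left hv (Nat.cast_nonneg n)
  calc _ ≤ _ := norm_add_le _ _
    _ < (S : ℝ) := by linarith

/-- every progression with difference `v` is hit -/
def Good (v : ℂ) : Prop := ∀ w : ℂ, ∃ n : ℕ, n < K ∧ w + (n : ℂ) * v ∈ RedC

theorem W_pos : (0 : ℝ) < W := by
  have : (0 : ℕ) < W := by decide
  exact_mod_cast this

theorem good_of_hit {vE vB rho : ℕ} {p q : ℝ}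
    (h : ∀ x y : ℝ, ((4 * W : ℕ) : ℝ) ≤ x → x ≤ ((6 * W : ℕ) : ℝ) → (W : ℝ) ≤ y →
      y ≤ ((2 * W : ℕ) : ℝ) → Hit vE vB rho x y)
    (hv : ‖z (p - vE) (q - vB)‖ ≤ rho) : Good (z p q) := by
  intro w
  obtain ⟨x, y, rfl⟩ := z_surj w
  have hW := W_pos
  set b : ℤ := ⌊y / W⌋ - 1 with hb
  set a : ℤ := ⌊(x - b * W) / (2 * W)⌋ - 2 with ha
  have hb1 : (b : ℝ) = (⌊y / W⌋ : ℝ) - 1 := by rw [hb]; push_cast; ring
  have ha1 : (a : ℝ) = (⌊(x - b * W) / (2 * W)⌋ : ℝ) - 2 := by rw [ha]; push_cast; ring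
  have f1 := Int.floor_le (y / W)
  have f2 := Int.lt_floor_add_one (y / W)
  have f3 := Int.floor_le ((x - b * W) / (2 * W))
  have f4 := Int.lt_floor_add_one ((x - b * W) / (2 * W))
  rw [le_div_iff₀ hW] at f1
  rw [div_lt_iff₀ hW] at f2
  rw [le_div_iff₀ (by positivity)] at f3
  rw [div_lt_iff₀ (by positivity)] at f4
  obtain ⟨n, hn, h1⟩ := hit_red (h (x - (2 * a + b) * W) (y - b * W) (by push_cast; rw [ha1]; linarith)
    (by push_cast; rw [ha1]; linarith) (by rw [hb1]; linarith) (by push_cast; rw [hb1]; linarith)) hv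
  refine ⟨n, hn, ?_⟩
  have h2 := red_trans a b h1
  have e : z (x - (2 * a + b) * W) (y - b * W) + (n : ℂ) * z p q + z ((2 * a + b) * W) (b * W) =
      z x y + (n : ℂ) * z p q := by
    rw [z_nsmul, z_add, z_add, z_add]
    congr 1 <;> ring
  rw [e] at h2
  exact h2

/-- the directions between `d` and `e` are good -/
def Cov (d1 d2 e1 e2 : ℕ) : Prop := ∀ p q : ℝ, p ^ 2 + 3 * q ^ 2 = 4 * (S : ℝ) ^ 2 →
  0 ≤ d1 * q - d2 * p → 0 ≤ p * e2 - q * e1 → Good (z p q)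

theorem Cov.trans {a b c d e f : ℕ} (h1 : Cov a b c d) (h2 : Cov c d e f) : Cov a b e f := by
  intro p q h3 h4 h5
  rcases le_total 0 (p * d - q * c) with h | h
  · exact h1 p q h3 h4 h
  · exact h2 p q h3 (by linarith) h5

/-- a lower bound for the inner product with an extreme direction -/
theorem cone_bound {E B vE vB rho : ℕ} (h : coneOK E B vE vB rho = true) :
    ((4 * S * S + (vE * vE + 3 * (vB * vB)) - rho * rho : ℕ) : ℝ) *
      Real.sqrt ((E : ℝ) ^ 2 + 3 * (B : ℝ) ^ 2) ≤ 4 * S * ((E : ℝ) * vE + 3 * (B * vB)) := by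
  have h1 := Nat.le_of_ble_eq_true h
  generalize 4 * S * S + (vE * vE + 3 * (vB * vB)) - rho * rho = T at h1 ⊢
  have h2 : ((T : ℝ) ^ 2 * ((E : ℝ) * E + 3 * (B * B))) ≤
      (4 * S * ((E : ℝ) * vE + 3 * (B * vB))) ^ 2 := by exact_mod_cast h1
  apply le_of_sq_le (by positivity)
  rw [mul_pow, Real.sq_sqrt (by positivity)]
  calc _ = ((T : ℝ) ^ 2 * ((E : ℝ) * E + 3 * (B * B))) := by ring
    _ ≤ _ := h2

theorem cone_close {E0 B0 E1 B1 vE vB rho : ℕ} (hc : B0 * E1 < E0 * B1)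
    (h0 : coneOK E0 B0 vE vB rho = true) (h1 : coneOK E1 B1 vE vB rho = true) {p q : ℝ}
    (hv : p ^ 2 + 3 * q ^ 2 = 4 * (S : ℝ) ^ 2) (ha : 0 ≤ p * B1 - q * E1)
    (hb : 0 ≤ E0 * q - B0 * p) : ‖z (p - vE) (q - vB)‖ ≤ rho := by
  have g0 := cone_bound h0
  have g1 := cone_bound h1
  have hS : (0 : ℝ) < S := by
    have : (0 : ℕ) < S := by decide
    exact_mod_cast this
  have hT : (4 * (S : ℝ) ^ 2 + ((vE : ℝ) ^ 2 + 3 * (vB : ℝ) ^ 2)) - (rho : ℝ) ^ 2 ≤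
      ((4 * S * S + (vE * vE + 3 * (vB * vB)) - rho * rho : ℕ) : ℝ) := by
    have : ((4 * S * S + (vE * vE + 3 * (vB * vB)) : ℕ) : ℝ) ≤
        ((4 * S * S + (vE * vE + 3 * (vB * vB)) - rho * rho : ℕ) : ℝ) + ((rho * rho : ℕ) : ℝ) := by
      exact_mod_cast (le_tsub_add : 4 * S * S + (vE * vE + 3 * (vB * vB)) ≤ _ + rho * rho)
    push_cast at this
    push_cast
    nlinarith
  have hT0 : (0 : ℝ) ≤ ((4 * S * S + (vE * vE + 3 * (vB * vB)) - rho * rho : ℕ) : ℝ) :=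
    Nat.cast_nonneg _
  generalize ((4 * S * S + (vE * vE + 3 * (vB * vB)) - rho * rho : ℕ) : ℝ) = T at g0 g1 hT hT0
  set c : ℝ := (E0 : ℝ) * B1 - B0 * E1 with hcdef
  have hc0 : 0 < c := by
    have : (B0 : ℝ) * E1 < E0 * B1 := by exact_mod_cast hc
    linarith
  set a : ℝ := p * B1 - q * E1 with hadef
  set b : ℝ := E0 * q - B0 * p with hbdef
  set n0 := Real.sqrt ((E0 : ℝ) ^ 2 + 3 * (B0 : ℝ) ^ 2) with hn0
  set n1 := Real.sqrt ((E1 : ℝ) ^ 2 + 3 * (B1 : ℝ) ^ 2) with hn1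
  have s0 : n0 ^ 2 = (E0 : ℝ) ^ 2 + 3 * (B0 : ℝ) ^ 2 := Real.sq_sqrt (by positivity)
  have s1 : n1 ^ 2 = (E1 : ℝ) ^ 2 + 3 * (B1 : ℝ) ^ 2 := Real.sq_sqrt (by positivity)
  have n0' : 0 ≤ n0 := Real.sqrt_nonneg _
  have n1' : 0 ≤ n1 := Real.sqrt_nonneg _
  have ecp : c * p = a * E0 + b * E1 := by rw [hcdef, hadef, hbdef]; ring
  have ecq : c * q = a * B0 + b * B1 := by rw [hcdef, hadef, hbdef]; ring
  -- Cauchy-Schwarz
  have cs : (E0 : ℝ) * E1 + 3 * (B0 * B1) ≤ n0 * n1 := by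
    apply le_of_sq_le (by positivity)
    rw [mul_pow, s0, s1]
    nlinarith [sq_nonneg ((E0 : ℝ) * B1 - B0 * E1)]
  have tri : c * (2 * S) ≤ a * n0 + b * n1 := by
    apply le_of_sq_le (by positivity)
    have e1 : (c * (2 * S)) ^ 2 = (a * E0 + b * E1) ^ 2 + 3 * (a * B0 + b * B1) ^ 2 := by
      rw [← ecp, ← ecq]
      linear_combination (-c ^ 2) * hv
    rw [e1]
    have e2 : (a * n0 + b * n1) ^ 2 = a ^ 2 * n0 ^ 2 + 2 * (a * b) * (n0 * n1) + b ^ 2 * n1 ^ 2 := by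
      ring
    rw [e2, s0, s1]
    have := mul_le_mul_of_nonneg_left cs (mul_nonneg ha hb)
    nlinarith
  have h5 : T * (c * (2 * S)) ≤ 4 * S * (c * (p * vE + 3 * (q * vB))) := by
    calc T * (c * (2 * S)) ≤ T * (a * n0 + b * n1) := mul_le_mul_of_nonneg_left tri hT0
      _ = a * (T * n0) + b * (T * n1) := by ring
      _ ≤ a * (4 * S * ((E0 : ℝ) * vE + 3 * (B0 * vB))) +
          b * (4 * S * ((E1 : ℝ) * vE + 3 * (B1 * vB))) :=
        add_le_add (mul_le_mul_of_nonneg_left g0 ha) (mul_le_mul_of_nonneg_left g1 hb)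
      _ = 4 * S * ((a * E0 + b * E1) * vE + 3 * ((a * B0 + b * B1) * vB)) := by ring
      _ = 4 * S * (c * (p * vE + 3 * (q * vB))) := by rw [← ecp, ← ecq]; ring
  have h6 : T ≤ 2 * (p * vE + 3 * (q * vB)) := by
    have : (2 * S * c) * T ≤ (2 * S * c) * (2 * (p * vE + 3 * (q * vB))) := by linarith
    exact le_of_mul_le_mul_left this (by positivity)
  apply le_of_sq_le (Nat.cast_nonneg _)
  rw [norm_z_sq]
  nlinarith

end Pool.Agent.Run7.h658.AP
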