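import Pool.Agent.Run7.h658.AP.Geom

/-!
# The main argument
-/

set_option autoImplicit false

namespace Pool.Agent.Run7.h658.AP

open Complex

theorem cov_of_full {E0 B0 E1 B1 vE vB rho fuel code : ℕ}
    (h : full E0 B0 E1 B1 vE vB rho fuel code = true) : Cov E0 B0 E1 B1 := by
  unfold full at h
  rw [Bool.and_eq_true, Bool.and_eq_true, Bool.and_eq_true] at h
  obtain ⟨⟨h1, h2, h3⟩, h4⟩ := h
  have h1' : B0 * E1 < E0 * B1 := Nat.le_of_ble_eq_true h1
  have h4' := Nat.le_of_ble_eq_true h4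
  intro p q hv hb ha
  apply good_of_hit _ (cone_close h1' h2 h3 hv ha hb)
  intro x y hx0 hx1 hy0 hy1
  exact chk_sound vE vB rho fuel _ _ _ _ _ (Nat.one_le_iff_ne_zero.mp h4') x y hx0 hx1 hy0 hy1

/-- the rotation by 120 degrees -/
noncomputable def om : ℂ := ⟨-1 / 2, Real.sqrt 3 / 2⟩

theorem om_z (x y : ℝ) : om * z x y = z (-(x + 3 * y) / 2) ((x - y) / 2) := by
  have h : Real.sqrt 3 * Real.sqrt 3 = 3 := Real.mul_self_sqrt (by norm_num)
  apply Complex.ext
  · simp only [om, z, Complex.mul_re]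
    linear_combination (-y / 2) * h
  · simp only [om, z, Complex.mul_im]
    ring

theorem norm_om : ‖om‖ = 1 := by
  have h : Real.sqrt 3 * Real.sqrt 3 = 3 := Real.mul_self_sqrt (by norm_num)
  have h2 : ‖om‖ ^ 2 = 1 := by
    rw [Complex.sq_norm, Complex.normSq_apply]
    simp only [om]
    linear_combination (1 / 4) * h
  nlinarith [norm_nonneg om]

theorem om_om_om (w : ℂ) : om * (om * (om * w)) = w := by
  obtain ⟨x, y, rfl⟩ := z_surj w
  rw [om_z, om_z, om_z]
  congr 1 <;> ring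

/-- the centres are mapped to centres: a finite check -/
def rotCheck : Bool :=
  (List.range M).all fun j => (List.range M).any fun j' =>
    (List.range 9).any fun a => (List.range 9).any fun b =>
      ((-((cE j : ℤ) + 3 * cB j)) == 2 * ((cE j' : ℤ) + (2 * ((a : ℤ) - 4) + ((b : ℤ) - 4)) * W)) &&
      (((cE j : ℤ) - cB j) == 2 * ((cB j' : ℤ) + ((b : ℤ) - 4) * W))

theorem rotCheck_true : rotCheck = true := by decide +kernel

theorem rot_centre (j : ℕ) (hj : j < M) : ∃ j', j' < M ∧ ∃ a b : ℤ,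
    -((cE j : ℤ) + 3 * cB j) = 2 * ((cE j' : ℤ) + (2 * a + b) * W) ∧
    ((cE j : ℤ) - cB j) = 2 * ((cB j' : ℤ) + b * W) := by
  have h := rotCheck_true
  unfold rotCheck at h
  rw [List.all_eq_true] at h
  have h1 := h j (List.mem_range.mpr hj)
  rw [List.any_eq_true] at h1
  obtain ⟨j', hj', h2⟩ := h1
  rw [List.any_eq_true] at h2
  obtain ⟨a, -, h3⟩ := h2
  rw [List.any_eq_true] at h3
  obtain ⟨b, -, h4⟩ := h3
  rw [Bool.and_eq_true, beq_iff_eq, beq_iff_eq] at h4
  exact ⟨j', List.mem_range.mp hj', (a : ℤ) - 4, (b : ℤ) - 4, h4.1, h4.2⟩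

theorem red_rot {w : ℂ} (h : w ∈ RedC) : om * w ∈ RedC := by
  obtain ⟨j, hj, a, b, h⟩ := h
  obtain ⟨j', hj', a', b', h1, h2⟩ := rot_centre j hj
  have h1' : -((cE j : ℝ) + 3 * cB j) = 2 * ((cE j' : ℝ) + (2 * a' + b') * W) := by exact_mod_cast h1
  have h2' : ((cE j : ℝ) - cB j) = 2 * ((cB j' : ℝ) + b' * W) := by exact_mod_cast h2
  -- the image of the lattice vector
  refine ⟨j', hj', a' - a - b, b' + a, ?_⟩
  have e : om * w - z (cE j' + (2 * ((a' - a - b : ℤ) : ℝ) + ((b' + a : ℤ) : ℝ)) * W)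
      (cB j' + ((b' + a : ℤ) : ℝ) * W) = om * (w - z (cE j + (2 * a + b) * W) (cB j + b * W)) := by
    rw [mul_sub, om_z]
    congr 1
    push_cast
    congr 1 <;> linarith
  rw [e, norm_mul, norm_om, one_mul]
  exact h

theorem red_rot' {w : ℂ} (h : om * w ∈ RedC) : w ∈ RedC := by
  rw [← om_om_om w]
  exact red_rot (red_rot h)

theorem good_rot {v : ℂ} (h : Good (om * v)) : Good v := by
  intro w
  obtain ⟨n, hn, h1⟩ := h (om * w)
  refine ⟨n, hn, red_rot' ?_⟩
  rw [mul_add]
  have : om * ((n : ℂ) * v) = (n : ℂ) * (om * v) := by ring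
  rw [this]
  exact h1

theorem good_neg {v : ℂ} (h : Good (-v)) : Good v := by
  intro w
  obtain ⟨n, hn, h1⟩ := h (w + ((K - 1 : ℕ) : ℂ) * v)
  refine ⟨K - 1 - n, by omega, ?_⟩
  have e : w + ((K - 1 - n : ℕ) : ℂ) * v = w + ((K - 1 : ℕ) : ℂ) * v + (n : ℂ) * -v := by
    rw [Nat.cast_sub (by omega : n ≤ K - 1)]
    ring
  rw [e]
  exact h1

/-- all directions are good once the sector is -/
theorem good_all (h : Cov (2 * S) 0 S S) : ∀ v : ℂ, ‖v‖ = 2 * S → Good v := by
  have hS : (0 : ℝ) < S := by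
    have : (0 : ℕ) < S := by decide
    exact_mod_cast this
  have key : ∀ p q : ℝ, p ^ 2 + 3 * q ^ 2 = 4 * (S : ℝ) ^ 2 → 0 ≤ q → q ≤ p → Good (z p q) := by
    intro p q h1 h2 h3
    refine h p q h1 ?_ ?_
    · push_cast; nlinarith
    · nlinarith
  intro v hv
  obtain ⟨p, q, rfl⟩ := z_surj v
  have h0 : p ^ 2 + 3 * q ^ 2 = 4 * (S : ℝ) ^ 2 := by
    rw [← norm_z_sq, hv]; ring
  rcases le_total 0 q with hq | hq
  · rcases le_total q p with hp | hp
    · exact key p q h0 hq hp
    · rcases le_total p (-q) with hp2 | hp2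
      · -- two rotations
        apply good_rot
        apply good_rot
        rw [om_z, om_z]
        exact key _ _ (by nlinarith) (by linarith) (by linarith)
      · apply good_neg
        apply good_rot
        rw [z_neg, om_z]
        exact key _ _ (by nlinarith) (by linarith) (by linarith)
  · rcases le_total p q with hp | hp
    · apply good_neg
      rw [z_neg]
      exact key _ _ (by nlinarith) (by linarith) (by linarith)
    · rcases le_total p (-q) with hp2 | hp2
      · apply good_rot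
        rw [om_z]
        exact key _ _ (by nlinarith) (by linarith) (by linarith)
      · apply good_neg
        apply good_rot
        apply good_rot
        rw [z_neg, om_z, om_z]
        exact key _ _ (by nlinarith) (by linarith) (by linarith)

/-- the centres are far apart: a finite check -/
def sepCheck : Bool :=
  (List.range M).all fun j => (List.range M).all fun j' =>
    (List.range 5).all fun a => (List.range 3).all fun b =>
      (((cE j : ℤ) - cE j' + (2 * ((a : ℤ) - 2) + ((b : ℤ) - 1)) * W == 0) &&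
        ((cB j : ℤ) - cB j' + ((b : ℤ) - 1) * W == 0)) ||
      decide (16 * (S : ℤ) ^ 2 ≤ ((cE j : ℤ) - cE j' + (2 * ((a : ℤ) - 2) + ((b : ℤ) - 1)) * W) ^ 2 +
        3 * ((cB j : ℤ) - cB j' + ((b : ℤ) - 1) * W) ^ 2)

theorem sepCheck_true : sepCheck = true := by decide +kernel

/-- the centres are reduced: a finite check -/
def redCheck : Bool :=
  (List.range M).all fun j => decide (cE j < 2 * W) && decide (cB j < W)

theorem redCheck_true : redCheck = true := by decide +kernel

theorem cE_lt (j : ℕ) (hj : j < M) : cE j < 2 * W := by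
  have h := redCheck_true
  unfold redCheck at h
  rw [List.all_eq_true] at h
  have h1 := h j (List.mem_range.mpr hj)
  rw [Bool.and_eq_true, decide_eq_true_eq, decide_eq_true_eq] at h1
  exact h1.1

theorem cB_lt (j : ℕ) (hj : j < M) : cB j < W := by
  have h := redCheck_true
  unfold redCheck at h
  rw [List.all_eq_true] at h
  have h1 := h j (List.mem_range.mpr hj)
  rw [Bool.and_eq_true, decide_eq_true_eq, decide_eq_true_eq] at h1
  exact h1.2

theorem sep_small (j j' : ℕ) (hj : j < M) (hj' : j' < M) (a b : ℤ) (ha : -2 ≤ a) (ha' : a ≤ 2)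
    (hb : -1 ≤ b) (hb' : b ≤ 1) :
    ((cE j : ℤ) - cE j' + (2 * a + b) * W = 0 ∧ (cB j : ℤ) - cB j' + b * W = 0) ∨
    16 * (S : ℤ) ^ 2 ≤ ((cE j : ℤ) - cE j' + (2 * a + b) * W) ^ 2 +
      3 * ((cB j : ℤ) - cB j' + b * W) ^ 2 := by
  have h := sepCheck_true
  unfold sepCheck at h
  rw [List.all_eq_true] at h
  have h1 := h j (List.mem_range.mpr hj)
  rw [List.all_eq_true] at h1
  have h2 := h1 j' (List.mem_range.mpr hj')
  rw [List.all_eq_true] at h2
  have h3 := h2 (a + 2).toNat (List.mem_range.mpr (by omega))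
  rw [List.all_eq_true] at h3
  have h4 := h3 (b + 1).toNat (List.mem_range.mpr (by omega))
  rw [Bool.or_eq_true, Bool.and_eq_true, beq_iff_eq, beq_iff_eq, decide_eq_true_eq] at h4
  have ea : (((a + 2).toNat : ℕ) : ℤ) - 2 = a := by omega
  have eb : (((b + 1).toNat : ℕ) : ℤ) - 1 = b := by omega
  rw [ea, eb] at h4
  exact h4

theorem W_big : 16 * (S : ℤ) ^ 2 ≤ 3 * (W : ℤ) ^ 2 := by decide +kernel

theorem sq_big {w v : ℤ} (hw : 0 < w) (h : v ≤ -w ∨ w ≤ v) : w ^ 2 ≤ v ^ 2 := by
  rcases h with h | h <;> nlinarith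

theorem sep (j j' : ℕ) (hj : j < M) (hj' : j' < M) (a b : ℤ) :
    ((cE j : ℤ) - cE j' + (2 * a + b) * W = 0 ∧ (cB j : ℤ) - cB j' + b * W = 0) ∨
    16 * (S : ℤ) ^ 2 ≤ ((cE j : ℤ) - cE j' + (2 * a + b) * W) ^ 2 +
      3 * ((cB j : ℤ) - cB j' + b * W) ^ 2 := by
  have k1 : (cE j : ℤ) < 2 * W := by exact_mod_cast cE_lt j hj
  have k2 : (cE j' : ℤ) < 2 * W := by exact_mod_cast cE_lt j' hj'
  have k3 : (cB j : ℤ) < W := by exact_mod_cast cB_lt j hj
  have k4 : (cB j' : ℤ) < W := by exact_mod_cast cB_lt j' hj'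
  have k5 : (0 : ℤ) ≤ cE j := Int.natCast_nonneg _
  have k6 : (0 : ℤ) ≤ cE j' := Int.natCast_nonneg _
  have k7 : (0 : ℤ) ≤ cB j := Int.natCast_nonneg _
  have k8 : (0 : ℤ) ≤ cB j' := Int.natCast_nonneg _
  have k9 : (0 : ℤ) < W := by
    have : (0 : ℕ) < W := by decide
    exact_mod_cast this
  have hbig := W_big
  by_cases hb : -1 ≤ b ∧ b ≤ 1
  · by_cases ha : -2 ≤ a ∧ a ≤ 2
    · exact sep_small j j' hj hj' a b ha.1 ha.2 hb.1 hb.2
    · right
      have h1 : (W : ℤ) ^ 2 ≤ ((cE j : ℤ) - cE j' + (2 * a + b) * W) ^ 2 := by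
        apply sq_big k9
        rcases not_and_or.mp ha with h | h
        · left
          have : (2 * a + b) * (W : ℤ) ≤ -5 * W :=
            mul_le_mul_of_nonneg_right (by omega) k9.le
          linarith
        · right
          have : 5 * (W : ℤ) ≤ (2 * a + b) * W :=
            mul_le_mul_of_nonneg_right (by omega) k9.le
          linarith
      have h2 : (3 * (W : ℤ)) ^ 2 ≤ ((cE j : ℤ) - cE j' + (2 * a + b) * W) ^ 2 := by
        apply sq_big (by linarith)
        rcases not_and_or.mp ha with h | h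
        · left
          have : (2 * a + b) * (W : ℤ) ≤ -5 * W :=
            mul_le_mul_of_nonneg_right (by omega) k9.le
          linarith
        · right
          have : 5 * (W : ℤ) ≤ (2 * a + b) * W :=
            mul_le_mul_of_nonneg_right (by omega) k9.le
          linarith
      have h3 := sq_nonneg ((cB j : ℤ) - cB j' + b * W)
      have h4 := sq_nonneg (W : ℤ)
      linarith
  · right
    have h1 : (W : ℤ) ^ 2 ≤ ((cB j : ℤ) - cB j' + b * W) ^ 2 := by
      apply sq_big k9
      rcases not_and_or.mp hb with h | h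
      · left
        have : b * (W : ℤ) ≤ -2 * W := mul_le_mul_of_nonneg_right (by omega) k9.le
        linarith
      · right
        have : 2 * (W : ℤ) ≤ b * W := mul_le_mul_of_nonneg_right (by omega) k9.le
        linarith
    have h3 := sq_nonneg ((cE j : ℤ) - cE j' + (2 * a + b) * W)
    linarith

/-- two red points in different discs are far apart, two in the same disc are close -/
theorem red_dist {u v : ℂ} (hu : u ∈ RedC) (hv : v ∈ RedC) : ‖u - v‖ ≠ 2 * S := by
  obtain ⟨j, hj, a, b, h1⟩ := hu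
  obtain ⟨j', hj', a', b', h2⟩ := hv
  have h3 : u - v = (u - z (cE j + (2 * a + b) * W) (cB j + b * W)) -
      (v - z (cE j' + (2 * a' + b') * W) (cB j' + b' * W)) +
      z (((cE j : ℝ) - cE j' + (2 * (a - a') + (b - b')) * W))
        ((cB j : ℝ) - cB j' + (b - b') * W) := by
    have : z (((cE j : ℝ) - cE j' + (2 * (a - a') + (b - b')) * W))
        ((cB j : ℝ) - cB j' + (b - b') * W) = z (cE j + (2 * a + b) * W) (cB j + b * W) -
        z (cE j' + (2 * a' + b') * W) (cB j' + b' * W) := by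
      rw [z_sub]
      congr 1 <;> ring
    rw [this]
    ring
  set d := z (((cE j : ℝ) - cE j' + (2 * (a - a') + (b - b')) * W))
        ((cB j : ℝ) - cB j' + (b - b') * W) with hd
  set u' := u - z (cE j + (2 * a + b) * W) (cB j + b * W) with hu'
  set v' := v - z (cE j' + (2 * a' + b') * W) (cB j' + b' * W) with hv'
  have h4 : ‖u' - v'‖ < 2 * S := by
    calc _ ≤ ‖u'‖ + ‖v'‖ := norm_sub_le _ _
      _ < 2 * S := by linarith
  have hS : (0 : ℝ) < S := by
    have : (0 : ℕ) < S := by decide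
    exact_mod_cast this
  rcases sep j j' hj hj' (a - a') (b - b') with ⟨e1, e2⟩ | h5
  · have e1' : (cE j : ℝ) - cE j' + (2 * (a - a') + (b - b')) * W = 0 := by exact_mod_cast e1
    have e2' : (cB j : ℝ) - cB j' + (b - b') * W = 0 := by exact_mod_cast e2
    have hd0 : d = 0 := by
      rw [hd, e1', e2']
      apply Complex.ext <;> simp [z]
    rw [h3, hd0, add_zero]
    exact h4.ne
  · have h5' : 16 * (S : ℝ) ^ 2 ≤ ((cE j : ℝ) - cE j' + (2 * (a - a') + (b - b')) * W) ^ 2 +
        3 * ((cB j : ℝ) - cB j' + (b - b') * W) ^ 2 := by exact_mod_cast h5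
    have h6 : 4 * (S : ℝ) ≤ ‖d‖ := by
      apply le_of_sq_le (norm_nonneg _)
      rw [hd, norm_z_sq]
      linarith
    have h7 : ‖d‖ ≤ ‖u - v‖ + ‖u' - v'‖ := by
      have : d = (u - v) - (u' - v') := by rw [h3]; ring
      rw [this]
      exact norm_sub_le _ _
    intro h8
    rw [h8] at h7
    linarith

/-- the scaling of the plane -/
noncomputable def phi (x : EuclideanSpace ℝ (Fin 2)) : ℂ := ⟨2 * S * x 0, 2 * S * x 1⟩

theorem phi_norm (x : EuclideanSpace ℝ (Fin 2)) : ‖phi x‖ = 2 * S * ‖x‖ := by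
  have hS : (0 : ℝ) ≤ S := Nat.cast_nonneg _
  have h1 : ‖phi x‖ ^ 2 = (2 * S * ‖x‖) ^ 2 := by
    rw [Complex.sq_norm, Complex.normSq_apply, mul_pow, EuclideanSpace.norm_sq_eq, Fin.sum_univ_two]
    simp only [phi, Real.norm_eq_abs, sq_abs]
    ring
  have h2 := norm_nonneg (phi x)
  have h3 : 0 ≤ 2 * (S : ℝ) * ‖x‖ := by positivity
  exact le_antisymm (le_of_sq_le h3 h1.le) (le_of_sq_le h2 h1.ge)

theorem phi_sub (x y : EuclideanSpace ℝ (Fin 2)) : phi (x - y) = phi x - phi y := by
  apply Complex.ext <;> simp [phi] <;> ring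

theorem phi_add_smul (x v : EuclideanSpace ℝ (Fin 2)) (n : ℕ) :
    phi (x + (n : ℝ) • v) = phi x + (n : ℂ) * phi v := by
  apply Complex.ext <;> simp [phi] <;> ring

/-- the red set of the plane -/
def Red : Set (EuclideanSpace ℝ (Fin 2)) := {x | phi x ∈ RedC}

theorem red_unit {x y : EuclideanSpace ℝ (Fin 2)} (hx : x ∈ Red) (hy : y ∈ Red) : dist x y ≠ 1 := by
  intro h
  apply red_dist hx hy
  rw [← phi_sub, phi_norm, ← dist_eq_norm, h, mul_one]

theorem red_progression (h : Cov (2 * S) 0 S S) (x v : EuclideanSpace ℝ (Fin 2)) (hv : ‖v‖ = 1) :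
    ∃ n : ℕ, n < K ∧ x + (n : ℝ) • v ∈ Red := by
  obtain ⟨n, hn, h1⟩ := good_all h (phi v) (by rw [phi_norm, hv, mul_one]) (phi x)
  refine ⟨n, hn, ?_⟩
  show phi (x + (n : ℝ) • v) ∈ RedC
  rw [phi_add_smul]
  exact h1

end Pool.Agent.Run7.h658.AP
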