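import Mathlib
import Pool.Agent.Run7.h658.AP.Check

/-!
# Soundness of the checker
-/

set_option autoImplicit false

namespace Pool.Agent.Run7.h658.AP

/-- The point `(x, y)` is hit at some time below `K`. -/
def Hit (vE vB rho : ℕ) (x y : ℝ) : Prop :=
  ∃ n : ℕ, n < K ∧ ∃ j : ℕ, j < M ∧ ∃ i1 i2 : ℕ,
    ((n : ℝ) * rho ≤ S) ∧
    (x + n * vE - (cE j + (2 * i1 + i2) * W)) ^ 2 + 3 * (y + n * vB - (cB j + i2 * W)) ^ 2 <
      ((S : ℝ) - n * rho) ^ 2

theorem mx_left (a b : ℕ) : a ≤ mx a b := by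
  unfold mx
  cases h : Nat.ble a b with
  | true => exact Nat.le_of_ble_eq_true h
  | false => exact le_rfl

theorem mx_right (a b : ℕ) : b ≤ mx a b := by
  unfold mx
  cases h : Nat.ble a b with
  | true => exact le_rfl
  | false =>
    have : ¬ a ≤ b := fun h2 => by rw [Nat.ble_eq_true_of_le h2] at h; exact Bool.noConfusion h
    exact (not_le.mp this).le

theorem far_spec {lo hi c : ℕ} {t : ℝ} (h1 : (lo : ℝ) ≤ t) (h2 : t ≤ hi) :
    |t - c| ≤ (far lo hi c : ℕ) := by
  have h3 : (c : ℝ) - lo ≤ ((c - lo : ℕ) : ℝ) := by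
    have : (c : ℝ) ≤ ((c - lo : ℕ) : ℝ) + lo := by exact_mod_cast (le_tsub_add : c ≤ (c - lo) + lo)
    linarith
  have h4 : (hi : ℝ) - c ≤ ((hi - c : ℕ) : ℝ) := by
    have : (hi : ℝ) ≤ ((hi - c : ℕ) : ℝ) + c := by exact_mod_cast (le_tsub_add : hi ≤ (hi - c) + c)
    linarith
  have h5 : ((c - lo : ℕ) : ℝ) ≤ (far lo hi c : ℕ) := by exact_mod_cast mx_left (c - lo) (hi - c)
  have h6 : ((hi - c : ℕ) : ℝ) ≤ (far lo hi c : ℕ) := by exact_mod_cast mx_right (c - lo) (hi - c)
  rw [abs_le]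
  constructor <;> linarith

theorem leaf_spec {vE vB rho x0 x1 y0 y1 n j i1 i2 : ℕ}
    (h : leafOK vE vB rho x0 x1 y0 y1 n j i1 i2 = true) {x y : ℝ}
    (hx0 : (x0 : ℝ) ≤ x) (hx1 : x ≤ x1) (hy0 : (y0 : ℝ) ≤ y) (hy1 : y ≤ y1) :
    Hit vE vB rho x y := by
  unfold leafOK small at h
  rw [Bool.and_eq_true, Bool.and_eq_true] at h
  obtain ⟨⟨h1, h2⟩, h3⟩ := h
  have h1' : n + 1 ≤ K := Nat.le_of_ble_eq_true h1
  have h2' : j + 1 ≤ M := Nat.le_of_ble_eq_true h2
  have h3' := Nat.le_of_ble_eq_true h3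
  clear h1 h2 h3
  have e1 : |(x + n * vE) - ((cE j + (2 * i1 + i2) * W : ℕ) : ℝ)| ≤
      (far (x0 + n * vE) (x1 + n * vE) (cE j + (2 * i1 + i2) * W) : ℕ) := by
    apply far_spec
    · push_cast; linarith
    · push_cast; linarith
  have e2 : |(y + n * vB) - ((cB j + i2 * W : ℕ) : ℝ)| ≤
      (far (y0 + n * vB) (y1 + n * vB) (cB j + i2 * W) : ℕ) := by
    apply far_spec
    · push_cast; linarith
    · push_cast; linarith
  have h4 : (far (x0 + n * vE) (x1 + n * vE) (cE j + (2 * i1 + i2) * W)) *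
      (far (x0 + n * vE) (x1 + n * vE) (cE j + (2 * i1 + i2) * W)) +
      3 * ((far (y0 + n * vB) (y1 + n * vB) (cB j + i2 * W)) *
      (far (y0 + n * vB) (y1 + n * vB) (cB j + i2 * W))) < (S - n * rho) * (S - n * rho) := h3'
  clear h3'
  generalize far (x0 + n * vE) (x1 + n * vE) (cE j + (2 * i1 + i2) * W) = dd at e1 h4
  generalize far (y0 + n * vB) (y1 + n * vB) (cB j + i2 * W) = ee at e2 h4
  have h5 : n * rho ≤ S := by
    by_contra hc
    have : S - n * rho = 0 := by omega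
    rw [this] at h4
    omega
  refine ⟨n, h1', j, h2', i1, i2, ?_, ?_⟩
  · exact_mod_cast h5
  · have h6 : ((dd : ℝ) * dd + 3 * (ee * ee)) < ((S : ℝ) - n * rho) * ((S : ℝ) - n * rho) := by
      have : ((S - n * rho : ℕ) : ℝ) = (S : ℝ) - n * rho := by
        rw [Nat.cast_sub h5]; push_cast; ring
      rw [← this]
      exact_mod_cast h4
    push_cast at e1 e2
    have e3 := sq_le_sq' (by linarith [abs_le.mp e1]) (abs_le.mp e1).2
    have e4 := sq_le_sq' (by linarith [abs_le.mp e2]) (abs_le.mp e2).2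
    nlinarith

theorem chk_zero (vE vB rho fuel x0 x1 y0 y1 : ℕ) : chk vE vB rho fuel x0 x1 y0 y1 0 = 0 := by
  cases fuel with
  | zero => rfl
  | succ fuel => rfl

theorem chk_sound (vE vB rho fuel : ℕ) : ∀ x0 x1 y0 y1 code : ℕ,
    chk vE vB rho fuel x0 x1 y0 y1 code ≠ 0 → ∀ x y : ℝ, (x0 : ℝ) ≤ x → x ≤ x1 → (y0 : ℝ) ≤ y →
      y ≤ y1 → Hit vE vB rho x y := by
  induction fuel with
  | zero => intro x0 x1 y0 y1 code h; exact absurd rfl h
  | succ fuel ih =>
    intro x0 x1 y0 y1 code h x y hx0 hx1 hy0 hy1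
    have hs : chk vE vB rho (fuel + 1) x0 x1 y0 y1 code =
      stepc vE vB rho (chk vE vB rho fuel) x0 x1 y0 y1 code := rfl
    rw [hs] at h
    clear hs
    unfold stepc at h
    cases hb1 : Nat.beq (Nat.land code 3) 1 with
    | true =>
      rw [hb1, cond_true] at h
      cases hl : leafOK vE vB rho x0 x1 y0 y1 (Nat.land (Nat.shiftRight code 2) 63)
        (Nat.land (Nat.shiftRight code 8) 15) (Nat.land (Nat.shiftRight code 12) 15)
        (Nat.land (Nat.shiftRight code 16) 15) with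
      | true => exact leaf_spec hl hx0 hx1 hy0 hy1
      | false => rw [hl, cond_false] at h; exact absurd rfl h
    | false =>
      rw [hb1, cond_false] at h
      cases hb2 : Nat.beq (Nat.land code 3) 2 with
      | true =>
        rw [hb2, cond_true] at h
        rcases le_total y ((Nat.div (Nat.add y0 y1) 2 : ℕ) : ℝ) with hy | hy
        · refine ih x0 x1 y0 _ (Nat.shiftRight code 2) (fun h0 => h ?_) x y hx0 hx1 hy0 hy
          rw [h0]
          exact chk_zero _ _ _ _ _ _ _ _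
        · exact ih _ _ _ _ _ h x y hx0 hx1 hy hy1
      | false =>
        rw [hb2, cond_false] at h
        cases hb3 : Nat.beq (Nat.land code 3) 3 with
        | true =>
          rw [hb3, cond_true] at h
          rcases le_total x ((Nat.add (Nat.mul 4 W)
            (Nat.mul (Nat.land (Nat.shiftRight code 2) 2047) g) : ℕ) : ℝ) with hy | hy
          · refine ih x0 _ y0 y1 (Nat.shiftRight code 13) (fun h0 => h ?_) x y hx0 hy hy0 hy1
            rw [h0]
            exact chk_zero _ _ _ _ _ _ _ _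
          · exact ih _ _ _ _ _ h x y hy hx1 hy0 hy1
        | false => rw [hb3, cond_false] at h; exact absurd rfl h

end Pool.Agent.Run7.h658.AP
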